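import Mathlib
import Pool.Agent.Lib.helper22.Ultra

set_option autoImplicit false

namespace Pool.Agent.Results.MP_0a3202_lc.NotConvex

open Filter FirstOrder FirstOrder.Language Pool.Agent.Lib.helper22.Ultra

/-- the full language of ℕ: a symbol for every function `ℕ^n → ℕ` and every relation on ℕ -/
def L : FirstOrder.Language where
  Functions := fun n => (Fin n → ℕ) → ℕ
  Relations := fun n => Set (Fin n → ℕ)

/-- ℕ as a structure for the full language: every symbol denotes itself -/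
instance std : L.Structure ℕ where
  funMap := fun f x => f x
  RelMap := fun R x => Membership.mem (γ := Set (Fin _ → ℕ)) R x

/-- `x ∈ *A` -/
def InStar {M : Type} [L.Structure M] (x : M) (A : Set ℕ) : Prop :=
  Structure.RelMap (L := L) (n := 1) {v : Fin 1 → ℕ | v 0 ∈ A} ![x]

/-- `x *∣ y` -/
def StarDvd {M : Type} [L.Structure M] (x y : M) : Prop :=
  Structure.RelMap (L := L) (n := 2) {v : Fin 2 → ℕ | v 0 ∣ v 1} ![x, y]

/-- the monad of an ultrafilter -/
def monad (M : Type) [L.Structure M] (F : Ultrafilter ℕ) : Set M := {x | ∀ A ∈ F, InStar x A}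

def star {M : Type} [L.Structure M] (f : ℕ → ℕ) (w : M) : M :=
  Structure.funMap (L := L) (n := 1) (fun v : Fin 1 → ℕ => f (v 0)) ![w]

def tf (f : ℕ → ℕ) : L.Term (Empty ⊕ Fin 1) :=
  Functions.apply₁ (L := L) (fun v : Fin 1 → ℕ => f (v 0)) (Term.var (Sum.inr 0))

def r1 (A : Set ℕ) (t : L.Term (Empty ⊕ Fin 1)) : L.BoundedFormula Empty 1 :=
  Relations.boundedFormula₁ (L := L) {v : Fin 1 → ℕ | v 0 ∈ A} t

def r2 (t u : L.Term (Empty ⊕ Fin 1)) : L.BoundedFormula Empty 1 :=
  Relations.boundedFormula₂ (L := L) {v : Fin 2 → ℕ | v 0 ∣ v 1} t u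

theorem tf_real {M : Type} [L.Structure M] (f : ℕ → ℕ) (v : Empty ⊕ Fin 1 → M) :
    (tf f).realize v = star f (v (Sum.inr 0)) :=
  Term.realize_functions_apply₁ (L := L)

theorem r1_real {M : Type} [L.Structure M] (A : Set ℕ) (t : L.Term (Empty ⊕ Fin 1))
    (v : Empty → M) (xs : Fin 1 → M) :
    (r1 A t).Realize v xs ↔ InStar (t.realize (Sum.elim v xs)) A :=
  BoundedFormula.realize_rel₁ (L := L)

theorem r2_real {M : Type} [L.Structure M] (t u : L.Term (Empty ⊕ Fin 1))
    (v : Empty → M) (xs : Fin 1 → M) :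
    (r2 t u).Realize v xs ↔ StarDvd (t.realize (Sum.elim v xs)) (u.realize (Sum.elim v xs)) :=
  BoundedFormula.realize_rel₂ (L := L)

theorem T1 {M : Type} [L.Structure M] (e : ℕ ↪ₑ[L] M) (f : ℕ → ℕ) (A B : Set ℕ)
    (h : ∀ n, n ∈ B → f n ∈ A) (w : M) (hw : InStar w B) : InStar (star f w) A := by
  have := e.map_sentence (BoundedFormula.all
    ((r1 B (Term.var (Sum.inr 0))).imp (r1 A (tf f))))
  simp only [Sentence.Realize, Formula.Realize, BoundedFormula.realize_all,
    BoundedFormula.realize_imp, r1_real, tf_real, Term.realize_var] at this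
  exact this.1 h w hw

theorem T2 {M : Type} [L.Structure M] (e : ℕ ↪ₑ[L] M) (f g : ℕ → ℕ)
    (h : ∀ n, f n ∣ g n) (w : M) : StarDvd (star f w) (star g w) := by
  have := e.map_sentence (BoundedFormula.all (r2 (tf f) (tf g)))
  simp only [Sentence.Realize, Formula.Realize, BoundedFormula.realize_all,
    r2_real, tf_real] at this
  exact this.1 h w

theorem T3 {M : Type} [L.Structure M] (e : ℕ ↪ₑ[L] M) (A : Set ℕ) (w : M)
    (h1 : InStar w A) (h2 : InStar w Aᶜ) : False := by
  have := e.map_sentence (BoundedFormula.all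
    ((r1 A (Term.var (Sum.inr 0))).imp ((r1 Aᶜ (Term.var (Sum.inr 0))).imp ⊥)))
  simp only [Sentence.Realize, Formula.Realize, BoundedFormula.realize_all,
    BoundedFormula.realize_imp, r1_real, Term.realize_var, BoundedFormula.realize_bot] at this
  exact this.1 (fun a ha hb => hb ha) w h1 h2

theorem result (M : Type) [L.Structure M] (e : ℕ ↪ₑ[L] M)
    (hM : ∀ F : Ultrafilter ℕ, (monad M F).Nonempty) :
    ∃ (F : Ultrafilter ℕ) (x y z : M), x ∈ monad M F ∧ y ∈ monad M F ∧
      StarDvd x z ∧ StarDvd z y ∧ z ∉ monad M F := by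
  let U : Ultrafilter ℕ := Ultrafilter.of atTop
  let G : Ultrafilter ℕ := (tens U U).map (fun p => Nat.pair p.1 p.2)
  obtain ⟨w, hw⟩ := hM G
  let f1 : ℕ → ℕ := fun n => 2 ^ n.unpair.1
  let f2 : ℕ → ℕ := fun n => 2 ^ (n.unpair.1 + 1)
  let f3 : ℕ → ℕ := fun n => 2 ^ (max n.unpair.2 (n.unpair.1 + 1))
  have hG : ∀ (f : ℕ → ℕ) (A : Set ℕ),
      (∀ᶠ a in (U : Filter ℕ), ∀ᶠ b in (U : Filter ℕ), f (Nat.pair a b) ∈ A) →
        InStar (star f w) A := by
    intro f A h
    exact T1 e f A {n | f n ∈ A} (fun _ h => h) w (hw _ ((eventually_tens U U _).2 h))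
  refine ⟨U.map (fun k => 2 ^ k), star f1 w, star f3 w, star f2 w, ?_, ?_, ?_, ?_, ?_⟩
  · intro A hA
    apply hG
    filter_upwards [hA] with a ha
    exact Eventually.of_forall fun b => by simpa [f1] using ha
  · intro A hA
    apply hG
    refine Eventually.of_forall fun a => ?_
    have h2 : ∀ᶠ b in (U : Filter ℕ), a + 1 ≤ b := Ultrafilter.of_le atTop (eventually_ge_atTop _)
    filter_upwards [hA, h2] with b hb hb2
    simpa [f3, max_eq_left hb2] using hb
  · exact T2 e _ _ (fun n => pow_dvd_pow 2 (Nat.le_succ _)) w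
  · exact T2 e _ _ (fun n => pow_dvd_pow 2 (le_max_right _ _)) w
  · intro hz
    obtain ⟨b, _, hb⟩ := const_of_finite U (fun k => decide (Even k)) Set.univ Set.finite_univ
      (Eventually.of_forall fun _ => trivial)
    refine T3 e {n | decide (Even (Nat.log 2 n)) = b} _ (hz _ ?_) (hG _ _ ?_)
    · change ∀ᶠ k in (U : Filter ℕ), decide (Even (Nat.log 2 (2 ^ k))) = b
      filter_upwards [hb] with k hk
      rwa [Nat.log_pow (by norm_num)]
    · filter_upwards [hb] with a ha
      refine Eventually.of_forall fun c => ?_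
      simp only [f2, Nat.unpair_pair, Set.mem_compl_iff, Set.mem_ofPred_eq]
      rw [Nat.log_pow (by norm_num), ← ha]
      by_cases h : Even a <;> simp [Nat.even_add_one, h]

end Pool.Agent.Results.MP_0a3202_lc.NotConvex
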